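import Pool.Agent.Helper70.EH.Goals2

/-!
# EH-SE: power series coefficients, inclusion and exclusion
-/

set_option autoImplicit false

namespace Pool.Agent.Helper2.EH.SE

open Pool.Agent.Helper70.EQ Pool.Agent.Helper70.EH

/-- `∏ (κ_i X f_i) = (∏ κ_i) X^r ∏ f_i`. -/
theorem prodX {r : ℕ} (κ : Fin r → ℝ) (f : Fin r → PowerSeries ℝ) (N : ℕ) (h : r ≤ N) :
    PowerSeries.coeff N (∏ i, (PowerSeries.C (κ i) * PowerSeries.X * f i)) =
      (∏ i, κ i) * PowerSeries.coeff (N - r) (∏ i, f i) := by
  rw [Finset.prod_mul_distrib, Finset.prod_mul_distrib, ← map_prod, Finset.prod_const,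
    Finset.card_univ, Fintype.card_fin, mul_assoc, PowerSeries.coeff_C_mul,
    PowerSeries.coeff_X_pow_mul', if_pos h]

theorem w1 (κ : ℝ) : PowerSeries.C κ * PowerSeries.X * PowerSeries.mk (fun j => 1 * κ ^ j) =
    PowerSeries.mk (fun j => if j = 0 then 0 else κ ^ j) := by
  ext j
  rcases j with _ | j
  · simp
  · rw [mul_assoc, PowerSeries.coeff_C_mul, PowerSeries.coeff_succ_X_mul, PowerSeries.coeff_mk,
      PowerSeries.coeff_mk, if_neg (Nat.succ_ne_zero j), pow_succ]
    ring

theorem w2 (κ : ℝ) : PowerSeries.C κ * PowerSeries.X * PowerSeries.mk (fun j => ph j * κ ^ j) =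
    PowerSeries.rescale κ (PowerSeries.exp ℝ) + (-1) := by
  ext j
  rcases j with _ | j
  · rw [mul_assoc, PowerSeries.coeff_C_mul, PowerSeries.coeff_zero_X_mul, map_add,
      PowerSeries.coeff_rescale, PowerSeries.coeff_exp, map_neg, PowerSeries.coeff_one]
    simp
  · rw [mul_assoc, PowerSeries.coeff_C_mul, PowerSeries.coeff_succ_X_mul, PowerSeries.coeff_mk,
      map_add, PowerSeries.coeff_rescale, PowerSeries.coeff_exp, map_neg, PowerSeries.coeff_one,
      if_neg (Nat.succ_ne_zero j)]
    unfold ph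
    simp only [eq_ratCast, neg_zero, add_zero, pow_succ, one_div]
    push_cast
    ring

theorem exp_prod {r : ℕ} (κ : Fin r → ℝ) (J : Finset (Fin r)) :
    ∏ i ∈ J, PowerSeries.rescale (κ i) (PowerSeries.exp ℝ) =
      PowerSeries.rescale (∑ i ∈ J, κ i) (PowerSeries.exp ℝ) := by
  classical
  induction J using Finset.induction_on with
  | empty =>
    rw [Finset.prod_empty, Finset.sum_empty]
    ext n
    rw [PowerSeries.coeff_rescale, PowerSeries.coeff_one]
    rcases n with _ | n
    · simp
    · simp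
  | insert a s ha ih =>
    rw [Finset.prod_insert ha, Finset.sum_insert ha, ih, PowerSeries.exp_mul_exp_eq_exp_add]

theorem coeff_one_prod {r : ℕ} (k : Fin r → ℕ) (N : ℕ) :
    PowerSeries.coeff N (∏ i, PowerSeries.mk (fun j => if j = 0 then (0 : ℝ) else (k i : ℝ) ^ j)) =
      wt k N := by
  classical
  rw [PowerSeries.coeff_prod]
  unfold wt
  rw [Finset.sum_filter]
  refine Finset.sum_nbij' (fun l => (l : Fin r → ℕ)) (fun m => Finsupp.equivFunOnFinite.symm m)
    ?_ ?_ ?_ ?_ ?_
  · intro l hl
    rw [Finset.mem_finsuppAntidiag] at hl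
    exact Finset.mem_piAntidiag.2 ⟨hl.1, fun i _ => Finset.mem_univ i⟩
  · intro m hm
    rw [Finset.mem_piAntidiag] at hm
    exact Finset.mem_finsuppAntidiag.2 ⟨hm.1, fun i _ => Finset.mem_univ i⟩
  · intro l _
    ext i
    simp
  · intro m _
    funext i
    simp
  · intro l _
    simp only [PowerSeries.coeff_mk]
    split_ifs with h
    · refine Finset.prod_congr rfl fun i _ => ?_
      rw [if_neg (by have := h i; omega)]
    · push Not at h
      obtain ⟨i, hi⟩ := h
      exact Finset.prod_eq_zero (Finset.mem_univ i) (if_pos (by omega))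

theorem t : Pool.Agent.Helper70.EH.G_SE := by
  classical
  intro r N k hr hrN hk
  have h0 : N ≠ 0 := by omega
  constructor
  · unfold gs
    rw [← prodX (fun i => (k i : ℝ)) _ N hrN]
    simp only [w1]
    exact (coeff_one_prod k N).symm
  · unfold gs
    rw [mul_assoc, ← prodX (fun i => (k i : ℝ)) _ N hrN]
    simp only [w2]
    rw [Finset.prod_add, map_sum]
    unfold ak
    rw [Finset.mul_sum, Finset.sum_filter, Finset.powerset_univ]
    refine Finset.sum_congr rfl fun J _ => ?_
    rw [exp_prod, Finset.prod_const, Finset.card_univ_sdiff, Fintype.card_fin]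
    have e : ((-1 : PowerSeries ℝ)) ^ (r - J.card) = PowerSeries.C ((-1 : ℝ) ^ (r - J.card)) := by
      rw [map_pow, map_neg, map_one]
    rw [e, mul_comm (PowerSeries.rescale _ _), PowerSeries.coeff_C_mul, PowerSeries.coeff_rescale,
      PowerSeries.coeff_exp]
    have hf : (N.factorial : ℝ) ≠ 0 := by exact_mod_cast N.factorial_ne_zero
    split_ifs with h
    · simp only [eq_ratCast, Rat.cast_div, Rat.cast_one, Rat.cast_natCast]
      field_simp
    · rw [Finset.not_nonempty_iff_eq_empty.1 h]
      simp [zero_pow h0]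

end Pool.Agent.Helper2.EH.SE
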